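import Pool.Agent.Helper65.HF.StA

/-!
# Project HF, module ALG: the interface between algebra and combinatorics
-/

namespace Pool.Agent.Helper94.HF

open MvPolynomial Pool.Agent.Helper45 Pool.Agent.Helper65.HF

/-- the leading exponent condition for a space of forms -/
private def QV {F : Type} [Field F] {N : ℕ} (V : Submodule F (MvPolynomial (Fin N) F))
    (m : Fin N →₀ ℕ) : Prop :=
  ∃ f ∈ V, f.coeff m ≠ 0 ∧ ∀ b, RL m b → f.coeff b = 0

private lemma ld_iff {F : Type} [Field F] {N c : ℕ} (J : Ideal (MvPolynomial (Fin N) F))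
    (m : Fin N →₀ ℕ) (hm : m.degree = c) :
    QV (homogeneousSubmodule (Fin N) F c ⊓ J.restrictScalars F) m ↔ Ld J m := by
  subst hm
  constructor
  · rintro ⟨f, hf, h1, h2⟩
    exact ⟨f, hf.2, hf.1, h1, h2⟩
  · rintro ⟨f, hf, h0, h1, h2⟩
    exact ⟨f, ⟨h0, hf⟩, h1, h2⟩

private lemma monomial_ok (hR : cRLO) {F : Type} [Field F] {N : ℕ}
    (V : Submodule F (MvPolynomial (Fin N) F)) (m : Fin N →₀ ℕ) (hm : monomial m (1 : F) ∈ V) :
    QV V m := by
  classical
  refine ⟨monomial m 1, hm, ?_, ?_⟩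
  · rw [coeff_monomial, if_pos rfl]
    exact one_ne_zero
  · intro b hb
    rw [coeff_monomial, if_neg]
    rintro rfl
    exact (hR N).1 m hb

private lemma cardc (hR : cRLO) (hC : cCNV) (hL : cLSM) (N c : ℕ) :
    (srt N c).card = (N + c - 1).choose c := by
  have h1 := hC ℚ N c (homogeneousSubmodule (Fin N) ℚ c) le_rfl
  rw [finrank_homog, Fintype.card_fin] at h1
  rw [← num_true, ← h1, hL.1 N c (fun _ => True)]
  refine Nat.card_congr (Equiv.subtypeEquivRight fun m => ?_)
  constructor
  · rintro ⟨h, -⟩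
    exact ⟨h, monomial_ok hR _ m (isHomogeneous_monomial _ h)⟩
  · rintro ⟨h, -⟩
    exact ⟨h, trivial⟩

private lemma numV (hC : cCNV) (hL : cLSM) {F : Type} [Field F] {N c : ℕ}
    (V : Submodule F (MvPolynomial (Fin N) F)) (hV : V ≤ homogeneousSubmodule (Fin N) F c) :
    num (srt N c) (fun l => QV V (mon N l)) = Module.finrank F V := by
  rw [hL.1 N c (fun m => QV V m)]
  exact hC F N c V hV

/-- the enlarged space -/
private noncomputable def V2 {F : Type} [Field F] (P : ℕ → ℕ → F) (j N r E : ℕ) :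
    Submodule F (MvPolynomial (Fin (N + 1)) F) :=
  Gr.setPart (Gr.pw (fun (a : Fin r) (s : Fin (N + 1)) => P a s) j) Finset.univ E ⊔
    (homogeneousSubmodule (Fin (N + 1)) F E).map (LinearMap.mulLeft F (X (Fin.last N) ^ j))

private lemma V2_le {F : Type} [Field F] (P : ℕ → ℕ → F) (j N r E : ℕ) :
    V2 P j N r E ≤ homogeneousSubmodule (Fin (N + 1)) F (E + j) := by
  refine sup_le (Gr.setPart_le (Gr.pw_isHomogeneous _ j) _ E) ?_
  rintro _ ⟨g, hg, rfl⟩
  rw [LinearMap.mulLeft_apply, add_comm E j]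
  have h1 : (X (Fin.last N) ^ j : MvPolynomial (Fin (N + 1)) F).IsHomogeneous j := by
    have := (isHomogeneous_X F (Fin.last N)).pow j
    rwa [one_mul] at this
  exact h1.mul hg

private lemma V2_ld (hP : cPRT) {F : Type} [Field F] (P : ℕ → ℕ → F) (j N r E : ℕ)
    (m : Fin (N + 1) →₀ ℕ) (hm : m.degree = E + j) (h : Ld (idl P j (N + 1) r) m) :
    QV (V2 P j N r E) m := by
  obtain ⟨f, hf, h1, h2⟩ := (ld_iff _ _ hm).2 h
  refine ⟨f, ?_, h1, h2⟩
  rw [(hP F P j (N + 1) r (E + j)).1 (Nat.le_add_left _ _), Nat.add_sub_cancel] at hf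
  exact Submodule.mem_sup_left hf

private lemma V2_last (hR : cRLO) {F : Type} [Field F] (P : ℕ → ℕ → F) (j N r E : ℕ)
    (m : Fin (N + 1) →₀ ℕ) (hm : m.degree = E + j) (h : j ≤ m (Fin.last N)) :
    QV (V2 P j N r E) m := by
  classical
  refine monomial_ok hR _ m (Submodule.mem_sup_right ?_)
  have h1 : m = Finsupp.single (Fin.last N) j + (m - Finsupp.single (Fin.last N) j) := by
    ext u
    rw [Finsupp.add_apply, Finsupp.tsub_apply, Finsupp.single_apply]
    split_ifs with hu
    · subst hu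
      omega
    · omega
  have h2 : (m - Finsupp.single (Fin.last N) j).degree = E := by
    have h3 := congrArg Finsupp.degree h1
    rw [map_add, Finsupp.degree_single, hm] at h3
    omega
  refine ⟨monomial (m - Finsupp.single (Fin.last N) j) 1, isHomogeneous_monomial _ h2, ?_⟩
  rw [LinearMap.mulLeft_apply, X_pow_eq_monomial, monomial_mul, one_mul, ← h1]

theorem hALG : Pool.Agent.Helper65.HF.sALG := by
  intro hR hC hCL hP hG hS hL hU k _ _ j r hj
  obtain ⟨hUp, hPre, hSt⟩ := hU k j r
  have hcnt : ∀ N c, num (srt N c) (StA k j r) = H k j N r c := by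
    intro N c
    obtain ⟨V, hVdef⟩ : ∃ V : Submodule (FractionRing (MvPolynomial (ℕ × ℕ) k))
        (MvPolynomial (Fin N) (FractionRing (MvPolynomial (ℕ × ℕ) k))),
        V = homogeneousSubmodule (Fin N) (FractionRing (MvPolynomial (ℕ × ℕ) k)) c ⊓
          (idl (gF k) j N r).restrictScalars (FractionRing (MvPolynomial (ℕ × ℕ) k)) := ⟨_, rfl⟩
    have hVle : V ≤ homogeneousSubmodule (Fin N) (FractionRing (MvPolynomial (ℕ × ℕ) k)) c := by
      rw [hVdef]
      exact inf_le_left
    have e1 : num (srt N c) (StA k j r) = num (srt N c) (fun l => ¬ QV V (mon N l)) := by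
      refine num_congr fun l hl => ?_
      obtain ⟨h1, h2, h3⟩ := mem_srt.1 hl
      have h4 : (mon N l).degree = c := by
        rw [hL.2.2.2 N l h3, h1]
      rw [hSt N l h3, ← hCL k j N r, hVdef, ld_iff _ _ h4]
    have e2 := num_add_not (srt N c) (fun l => QV V (mon N l))
    rw [numV hC hL V hVle, cardc hR hC hL, ← e1] at e2
    have e3 : Module.finrank (FractionRing (MvPolynomial (ℕ × ℕ) k)) V =
        if j ≤ c then Gr.gen k (Fin N) j (c - j) r else 0 := by
      split_ifs with hjc
      · rw [hVdef, (hP _ (gF k) j N r c).1 hjc]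
        exact hG k j N r (c - j)
      · rw [hVdef, (hP _ (gF k) j N r c).2 (by omega)]
        exact finrank_bot _ _
    rw [e3] at e2
    unfold H
    omega
  refine ⟨StA k j r, hUp, hPre, ?_, hcnt, ?_⟩
  · have h1 := hcnt 0 0
    have h2 : H k j 0 r 0 = 1 := by
      unfold H
      rw [if_neg (by omega)]
      rfl
    rw [h2] at h1
    classical
    unfold num at h1
    obtain ⟨l, hl⟩ := Finset.card_pos.1 (by rw [h1]; exact one_pos)
    obtain ⟨hl1, hl2⟩ := Finset.mem_filter.1 hl
    have hl3 := (mem_srt.1 hl1).1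
    rw [List.length_eq_zero_iff] at hl3
    rw [hl3] at hl2
    exact hl2
  · intro N c hjc
    obtain ⟨E, rfl⟩ : ∃ E, c = E + j := ⟨c - j, by omega⟩
    have hsem : Module.finrank (FractionRing (MvPolynomial (ℕ × ℕ) k)) (V2 (gF k) j N r E) ≤
        Gr.gen k (Fin (N + 1)) j E (r + 1) := hS k j N r E
    have e2 := num_add_not (srt (N + 1) (E + j)) (fun l => QV (V2 (gF k) j N r E) (mon (N + 1) l))
    rw [numV hC hL _ (V2_le (gF k) j N r E), cardc hR hC hL] at e2
    have e3 : num (srt (N + 1) (E + j)) (fun l => ¬ QV (V2 (gF k) j N r E) (mon (N + 1) l)) ≤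
        num (srt (N + 1) (E + j)) (fun l => StA k j r l ∧ ¬ ∃ l', l = l' ++ List.replicate j N) := by
      refine num_mono fun l hl hq => ?_
      obtain ⟨h1, h2, h3⟩ := mem_srt.1 hl
      have h4 : (mon (N + 1) l).degree = E + j := by
        rw [hL.2.2.2 (N + 1) l h3, h1]
      constructor
      · rw [hSt (N + 1) l h3, ← hCL k j (N + 1) r]
        intro hld
        exact hq (V2_ld hP (gF k) j N r E _ h4 hld)
      · rintro ⟨l', rfl⟩
        refine hq (V2_last hR (gF k) j N r E _ h4 ?_)
        have h5 : mon (N + 1) (l' ++ List.replicate j N) (Fin.last N) =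
            (l' ++ List.replicate j N).count N := rfl
        rw [h5, List.count_append, List.count_replicate_self]
        exact Nat.le_add_left _ _
    unfold H
    rw [if_pos (Nat.le_add_left _ _), Nat.add_sub_cancel]
    omega

end Pool.Agent.Helper94.HF
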